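import Mathlib

set_option autoImplicit false

/-!
The construction: a graph which is not 14-colourable, whose dense part is a complete
6-partite graph with parts of size `L ^ 2` (`L = 2 * m + 2`), on `6 L ^ 2 + 12 L + 20` vertices,
and such that deleting any edge of the dense part makes it 14-colourable.
-/

namespace Pool.Agent.Helper90.Crit

/-- The fourteen colours. `(none, false)` and `(none, true)` are called `al` and `be`. -/
abbrev Col := Option (Fin 6) × Bool

abbrev al : Col := (none, false)
abbrev be : Col := (none, true)

/-- The palette of the state vertices. -/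
def pal (j : Fin 6) : Col :=
  if j = 0 then (none, false) else if j = 1 then (none, true) else (some j, false)

lemma pal_injective : Function.Injective pal := by decide

/-- The vertices of the construction. -/
inductive Vx (m : ℕ) : Type
  | ref (c : Col) : Vx m
  | st (i : Fin 6) : Vx m
  | cyc (i : Fin 6) (s : Bool) (t : Fin (2 * m + 2)) : Vx m
  | big (i : Fin 6) (p q : Fin (2 * m + 2)) : Vx m

open Vx

/-- The (not symmetrised) adjacency relation. -/
def rel {m : ℕ} : Vx m → Vx m → Prop
  | ref c, ref c' => c ≠ c'
  | ref c, st _ => ∀ j, c ≠ pal j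
  | ref c, cyc i s _ => c ≠ (none, false) ∧ c ≠ (none, true) ∧ c ≠ (some i, s)
  | ref c, big i _ _ => c ≠ (none, false) ∧ c ≠ (some i, false) ∧ c ≠ (some i, true)
  | st i, st j => i ≠ j
  | st i, cyc j _ t => i = j ∧ (t.val = 0 ∨ t.val = 2 * m + 1)
  | cyc i s t, cyc i' s' t' => i = i' ∧ s = s' ∧ t'.val = t.val + 1
  | cyc i s t, big j p q => i = j ∧ ((s = false ∧ t = p) ∨ (s = true ∧ t = q))
  | big i _ _, big j _ _ => i ≠ j
  | _, _ => False

/-- The graph. -/
def Gr (m : ℕ) : SimpleGraph (Vx m) := SimpleGraph.fromRel rel

lemma adj_of_rel {m : ℕ} {a b : Vx m} (h : rel a b) (hne : a ≠ b) : (Gr m).Adj a b := by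
  rw [Gr, SimpleGraph.fromRel_adj]
  exact ⟨hne, Or.inl h⟩

/-- Non-colourability. -/
theorem not_colorable (m : ℕ) : ¬ (Gr m).Colorable 14 := by
  rintro ⟨C0⟩
  -- the colours of the reference clique
  have hcard : Fintype.card Col = 14 := by decide
  let E : Fin 14 ≃ Col := (Fintype.equivFinOfCardEq hcard).symm
  let C : Vx m → Col := fun v => E (C0 v)
  have hC : ∀ {a b : Vx m}, rel a b → a ≠ b → C a ≠ C b := by
    intro a b h hne heq
    exact C0.valid (adj_of_rel h hne) (E.injective heq)
  have hinj : Function.Injective (fun c : Col => C (ref c)) := by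
    intro c c' h
    by_contra hne
    exact hC (a := ref c) (b := ref c') hne (by simpa using hne) h
  have hbij : Function.Bijective (fun c : Col => C (ref c)) :=
    Finite.injective_iff_bijective.mp hinj
  let π := Equiv.ofBijective _ hbij
  let φ : Vx m → Col := fun v => π.symm (C v)
  have hφ : ∀ {a b : Vx m}, rel a b → a ≠ b → φ a ≠ φ b := by
    intro a b h hne heq
    exact hC h hne (π.symm.injective heq)
  have href : ∀ c, φ (ref c) = c := by
    intro c
    exact π.symm_apply_apply c
  -- state vertices
  have hst : ∀ i, ∃ j, φ (st i) = pal j := by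
    intro i
    by_contra hcon
    push Not at hcon
    exact hφ (a := ref (φ (st i))) (b := st i) hcon (by simp) (href _)
  choose τ hτ using hst
  have hτinj : Function.Injective τ := by
    intro i j h
    by_contra hne
    exact hφ (a := st i) (b := st j) hne (by simpa using hne) (by rw [hτ, hτ, h])
  have hτsurj : Function.Surjective τ := Finite.injective_iff_surjective.mp hτinj
  obtain ⟨i0, hi0⟩ := hτsurj 0
  obtain ⟨j0, hj0⟩ := hτsurj 1
  have hne0 : i0 ≠ j0 := by
    rintro rfl
    rw [hi0] at hj0
    exact absurd hj0 (by decide)
  have hsti : φ (st i0) = (none, false) := by rw [hτ, hi0]; decide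
  have hstj : φ (st j0) = (none, true) := by rw [hτ, hj0]; decide
  -- cycle palettes
  have hcycpal : ∀ i s t, φ (cyc i s t) = (none, false) ∨ φ (cyc i s t) = (none, true) ∨
      φ (cyc i s t) = (some i, s) := by
    intro i s t
    by_contra hcon
    push Not at hcon
    exact hφ (a := ref (φ (cyc i s t))) (b := cyc i s t) hcon (by simp) (href _)
  have hbigpal : ∀ i p q, φ (big i p q) = (none, false) ∨ φ (big i p q) = (some i, false) ∨
      φ (big i p q) = (some i, true) := by
    intro i p q
    by_contra hcon
    push Not at hcon
    exact hφ (a := ref (φ (big i p q))) (b := big i p q) hcon (by simp) (href _)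
  -- the odd cycle argument
  have hodd : ∀ i b, φ (st i) = (none, b) → ∀ s, ∃ t, φ (cyc i s t) = (some i, s) := by
    intro i b hb s
    by_contra hcon
    push Not at hcon
    have h2 : ∀ t, ∃ b' : Bool, φ (cyc i s t) = (none, b') := by
      intro t
      rcases hcycpal i s t with h | h | h
      · exact ⟨_, h⟩
      · exact ⟨_, h⟩
      · exact absurd h (hcon t)
    have key : ∀ n (hn : n < 2 * m + 2), φ (cyc i s ⟨n, hn⟩) = (none, if Even n then !b else b) := by
      intro n
      induction n with
      | zero =>
        intro hn
        obtain ⟨b', hb'⟩ := h2 ⟨0, hn⟩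
        have hne : φ (st i) ≠ φ (cyc i s ⟨0, hn⟩) :=
          hφ (a := st i) (b := cyc i s ⟨0, hn⟩) ⟨rfl, Or.inl rfl⟩ (by simp)
        rw [hb, hb'] at hne
        rw [hb']
        revert hne
        cases b <;> cases b' <;> simp
      | succ n ih =>
        intro hn
        obtain ⟨b', hb'⟩ := h2 ⟨n + 1, hn⟩
        have ih' := ih (by omega)
        have hne : φ (cyc i s ⟨n, by omega⟩) ≠ φ (cyc i s ⟨n + 1, hn⟩) :=
          hφ (a := cyc i s ⟨n, by omega⟩) (b := cyc i s ⟨n + 1, hn⟩) ⟨rfl, rfl, rfl⟩ (by simp)
        rw [ih', hb'] at hne
        rw [hb']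
        revert hne
        by_cases hev : Even n <;> cases b <;> cases b' <;> simp [hev, Nat.even_add_one]
    have hlast := key (2 * m + 1) (by omega)
    have hne : φ (st i) ≠ φ (cyc i s ⟨2 * m + 1, by omega⟩) :=
      hφ (a := st i) (b := cyc i s ⟨2 * m + 1, by omega⟩) ⟨rfl, Or.inr rfl⟩ (by simp)
    rw [hb, hlast] at hne
    apply hne
    have : ¬ Even (2 * m + 1) := by
      rw [Nat.not_even_iff_odd]; exact ⟨m, rfl⟩
    simp [this]
  have hbig : ∀ i b, φ (st i) = (none, b) → ∃ p q, φ (big i p q) = (none, false) := by
    intro i b hb
    obtain ⟨p, hp⟩ := hodd i b hb false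
    obtain ⟨q, hq⟩ := hodd i b hb true
    refine ⟨p, q, ?_⟩
    have h1 : φ (cyc i false p) ≠ φ (big i p q) :=
      hφ (a := cyc i false p) (b := big i p q) ⟨rfl, Or.inl ⟨rfl, rfl⟩⟩ (by simp)
    have h2 : φ (cyc i true q) ≠ φ (big i p q) :=
      hφ (a := cyc i true q) (b := big i p q) ⟨rfl, Or.inr ⟨rfl, rfl⟩⟩ (by simp)
    rcases hbigpal i p q with h | h | h
    · exact h
    · exact absurd (hp.trans h.symm) h1
    · exact absurd (hq.trans h.symm) h2
  obtain ⟨p, q, hpq⟩ := hbig i0 false hsti
  obtain ⟨p', q', hpq'⟩ := hbig j0 true hstj
  exact hφ (a := big i0 p q) (b := big j0 p' q') hne0 (by simp [hne0]) (hpq.trans hpq'.symm)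

/-- Alternating colouring of a path with one special position `p`: the vertex at position `p`
gets colour `x`, the others get `(none, b)` or `(none, !b)`, where `b` is the colour of the
state vertex closing the cycle. -/
def alt (b : Bool) (x : Col) (p t : ℕ) : Col :=
  if t = p then x else if (t < p ↔ Even t) then (none, !b) else (none, b)

/-- The position of the special vertex on the `s`-side cycle. -/
def sel {m : ℕ} (s : Bool) (p q : Fin (2 * m + 2)) : ℕ := if s then q.val else p.val

lemma sel_lt {m : ℕ} (s : Bool) (p q : Fin (2 * m + 2)) : sel s p q < 2 * m + 2 := by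
  unfold sel
  split_ifs
  · exact q.isLt
  · exact p.isLt

/-- The colouring which shows that the edge between `big i0 p0 q0` and `big j0 p1 q1` is
critical. -/
def colr {m : ℕ} (σ : Fin 6 → Fin 6) (i0 j0 : Fin 6) (p0 q0 p1 q1 : Fin (2 * m + 2)) :
    Vx m → Col
  | ref c => c
  | st i => pal (σ i)
  | cyc i s t =>
      if i = i0 then alt false (some i, s) (sel s p0 q0) t.val
      else if i = j0 then alt true (some i, s) (sel s p1 q1) t.val
      else (none, decide (Even t.val))
  | big i p q =>
      if i = i0 then
        (if p = p0 then (if q = q0 then (none, false) else (some i, true)) else (some i, false))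
      else if i = j0 then
        (if p = p1 then (if q = q1 then (none, false) else (some i, true)) else (some i, false))
      else (some i, true)

lemma alt_step (b : Bool) (i : Fin 6) (s : Bool) (p t : ℕ) :
    alt b (some i, s) p t ≠ alt b (some i, s) p (t + 1) := by
  unfold alt
  have he : Even (t + 1) ↔ ¬ Even t := Nat.even_add_one
  by_cases h1 : t = p
  · subst h1
    have h3 : ¬ (t + 1 < t) := by omega
    by_cases hev : Even t <;> simp [he, hev, h3]
  · by_cases h2 : t + 1 = p
    · have h3 : t < p := by omega
      by_cases hev : Even t <;> simp [hev, h1, h2, h3]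
    · by_cases h3 : t < p
      · have h4 : t + 1 < p := by omega
        by_cases hev : Even t <;> simp [he, hev, h1, h2, h3, h4]
      · have h4 : ¬ (t + 1 < p) := by omega
        by_cases hev : Even t <;> simp [he, hev, h1, h2, h3, h4]

lemma alt_zero (b : Bool) (i : Fin 6) (s : Bool) (p : ℕ) :
    (none, b) ≠ alt b (some i, s) p 0 := by
  unfold alt
  by_cases h1 : 0 = p
  · simp [h1]
  · have h2 : 0 < p := by omega
    simp [h1, h2]

lemma alt_last (b : Bool) (i : Fin 6) (s : Bool) (m : ℕ) (p : ℕ) (hp : p < 2 * m + 2) :
    (none, b) ≠ alt b (some i, s) p (2 * m + 1) := by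
  unfold alt
  have ho : ¬ Even (2 * m + 1) := by
    rw [Nat.not_even_iff_odd]; exact ⟨m, rfl⟩
  by_cases h1 : 2 * m + 1 = p
  · simp [h1]
  · have h2 : ¬ (2 * m + 1 < p) := by omega
    simp [h1, h2, ho]

lemma alt_mem (b : Bool) (x : Col) (p t : ℕ) :
    alt b x p t = x ∨ alt b x p t = (none, false) ∨ alt b x p t = (none, true) := by
  unfold alt
  split_ifs <;> cases b <;> simp

lemma alt_ne (b : Bool) (i : Fin 6) (s : Bool) (p t : ℕ) (h : t ≠ p) :
    alt b (some i, s) p t = (none, false) ∨ alt b (some i, s) p t = (none, true) := by
  unfold alt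
  rw [if_neg h]
  split_ifs <;> cases b <;> simp

lemma alt_self (b : Bool) (x : Col) (p : ℕ) : alt b x p p = x := by
  simp [alt]

theorem colr_valid {m : ℕ} (σ : Fin 6 → Fin 6) (hσ : Function.Injective σ) (i0 j0 : Fin 6)
    (hi : σ i0 = 0) (hj : σ j0 = 1) (p0 q0 p1 q1 : Fin (2 * m + 2)) (a b : Vx m)
    (hr : rel a b)
    (h1 : ¬ (a = big i0 p0 q0 ∧ b = big j0 p1 q1))
    (h2 : ¬ (a = big j0 p1 q1 ∧ b = big i0 p0 q0)) :
    colr σ i0 j0 p0 q0 p1 q1 a ≠ colr σ i0 j0 p0 q0 p1 q1 b := by
  have hij : i0 ≠ j0 := by
    rintro rfl
    rw [hi] at hj
    exact absurd hj (by decide)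
  have hp0 : pal 0 = (none, false) := by decide
  have hp1 : pal 1 = (none, true) := by decide
  cases a with
  | ref c =>
    cases b with
    | ref c' => exact hr
    | st i => exact hr (σ i)
    | cyc i s t =>
      obtain ⟨ha, hb, hc⟩ := hr
      simp only [colr]
      split_ifs
      · rcases alt_mem false (some i, s) (sel s p0 q0) t.val with h | h | h
        all_goals (rw [h]; assumption)
      · rcases alt_mem true (some i, s) (sel s p1 q1) t.val with h | h | h
        all_goals (rw [h]; assumption)
      · by_cases he : Even t.val
        · simpa [he] using hb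
        · simpa [he] using ha
    | big i p q =>
      obtain ⟨ha, hb, hc⟩ := hr
      simp only [colr]
      split_ifs <;> assumption
  | st i =>
    cases b with
    | ref c' => exact absurd hr (by simp [rel])
    | st j =>
      simp only [colr]
      intro h
      exact hr (hσ (pal_injective h))
    | cyc j s t =>
      obtain ⟨rfl, ht⟩ := hr
      simp only [colr]
      split_ifs with hi1 hi2
      · subst hi1
        rw [hi, hp0]
        rcases ht with ht | ht
        · rw [ht]; exact alt_zero _ _ _ _
        · rw [ht]
          exact alt_last _ _ _ _ _ (sel_lt _ _ _)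
      · subst hi2
        rw [hj, hp1]
        rcases ht with ht | ht
        · rw [ht]; exact alt_zero _ _ _ _
        · rw [ht]
          exact alt_last _ _ _ _ _ (sel_lt _ _ _)
      · have h0 : σ i ≠ 0 := fun h => hi1 (hσ (h.trans hi.symm))
        have h1 : σ i ≠ 1 := fun h => hi2 (hσ (h.trans hj.symm))
        simp [pal, h0, h1]
    | big i p q => exact absurd hr (by simp [rel])
  | cyc i s t =>
    cases b with
    | ref c' => exact absurd hr (by simp [rel])
    | st j => exact absurd hr (by simp [rel])
    | cyc i' s' t' =>
      obtain ⟨rfl, rfl, ht⟩ := hr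
      simp only [colr]
      rw [ht]
      split_ifs
      · exact alt_step _ _ _ _ _
      · exact alt_step _ _ _ _ _
      · by_cases he : Even t.val <;> simp [he, Nat.even_add_one]
    | big j p q =>
      obtain ⟨rfl, ht⟩ := hr
      have key : ∀ (b : Bool) (P Q : Fin (2 * m + 2)),
          alt b (some i, s) (sel s P Q) t.val ≠
          (if p = P then (if q = Q then ((none, false) : Col) else (some i, true))
            else (some i, false)) := by
        intro b P Q
        unfold sel
        rcases ht with ⟨rfl, rfl⟩ | ⟨rfl, rfl⟩
        · by_cases hP : t = P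
          · subst hP
            simp only [Bool.false_eq_true, if_false, if_true, alt_self]
            split_ifs <;> simp
          · have hP' : t.val ≠ P.val := fun h => hP (Fin.ext h)
            simp only [Bool.false_eq_true, if_false, hP]
            rcases alt_ne b i false P.val t.val hP' with h | h <;> rw [h] <;> simp
        · by_cases hQ : t = Q
          · subst hQ
            simp only [if_true, alt_self]
            split_ifs <;> simp
          · have hQ' : t.val ≠ Q.val := fun h => hQ (Fin.ext h)
            simp only [if_true, hQ, if_false]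
            split_ifs <;> rcases alt_ne b i true Q.val t.val hQ' with h | h <;> rw [h] <;> simp
      simp only [colr]
      by_cases hi1 : i = i0
      · rw [if_pos hi1, if_pos hi1]
        exact key false p0 q0
      · rw [if_neg hi1, if_neg hi1]
        by_cases hi2 : i = j0
        · rw [if_pos hi2, if_pos hi2]
          exact key true p1 q1
        · rw [if_neg hi2, if_neg hi2]
          simp
  | big i p q =>
    cases b with
    | ref c' => exact absurd hr (by simp [rel])
    | st j => exact absurd hr (by simp [rel])
    | cyc i' s' t' => exact absurd hr (by simp [rel])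
    | big j p' q' =>
      have hne : i ≠ j := hr
      simp only [colr]
      by_cases hi1 : i = i0
      · subst hi1
        have hj1 : j ≠ i := fun h => hne h.symm
        by_cases hj2 : j = j0
        · subst hj2
          simp only [if_true, hj1, if_false]
          by_cases hp : p = p0
          · by_cases hq : q = q0
            · subst hp; subst hq
              by_cases hp' : p' = p1
              · by_cases hq' : q' = q1
                · subst hp'; subst hq'
                  exact absurd ⟨rfl, rfl⟩ h1
                · simp [hp', hq']
              · simp [hp']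
            · simp only [hp, hq, if_true, if_false]
              split_ifs <;> simp [hne]
          · simp only [hp, if_false]
            split_ifs <;> simp [hne]
        · simp only [if_true, hj1, hj2, if_false]
          split_ifs <;> simp [hne]
      · by_cases hi2 : i = j0
        · subst hi2
          by_cases hj1 : j = i0
          · subst hj1
            simp only [if_true, hi1, if_false]
            by_cases hp : p = p1
            · by_cases hq : q = q1
              · subst hp; subst hq
                by_cases hp' : p' = p0
                · by_cases hq' : q' = q0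
                  · subst hp'; subst hq'
                    exact absurd ⟨rfl, rfl⟩ h2
                  · simp [hp', hq']
                · simp [hp']
              · simp only [hp, hq, if_true, if_false]
                split_ifs <;> simp [hne]
            · simp only [hp, if_false]
              split_ifs <;> simp [hne]
          · have hj2 : j ≠ i := fun h => hne h.symm
            simp only [if_true, hi1, hj1, hj2, if_false]
            split_ifs <;> simp [hne]
        · simp only [hi1, hi2, if_false]
          split_ifs <;> simp [hne]

end Pool.Agent.Helper90.Crit
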