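import Mathlib
import Pool.Prelude.Def_F_851b09c8

set_option autoImplicit false

open Nf4105210

namespace Pool.Agent.Helper90.Crit

/-- A criterion for criticality. -/
lemma isKCritical_of {W : Type*} [Nonempty W] (H : SimpleGraph W) (K : ℕ)
    (h1 : ¬ H.Colorable K) (h2 : ∀ e ∈ H.edgeSet, (H.deleteEdges {e}).Colorable K)
    (h3 : ∀ v, ∃ w, H.Adj v w) : IsKCritical H (K + 1) := by
  classical
  have hle : ((K : ℕ∞) + 1) ≤ H.chromaticNumber := by
    rw [ENat.add_one_le_iff (ENat.natCast_ne_top K), ← not_le,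
      SimpleGraph.chromaticNumber_le_iff_colorable]
    exact h1
  have hcol : H.Colorable (K + 1) := by
    obtain ⟨v⟩ := (inferInstance : Nonempty W)
    obtain ⟨w, hw⟩ := h3 v
    obtain ⟨C⟩ := h2 s(v, w) hw
    refine (SimpleGraph.Coloring.colorable (α := Option (Fin K)) (SimpleGraph.Coloring.mk
      (fun x => if x = v then none else some (C x)) ?_)).mono (by simp)
    intro a b hab
    by_cases ha : a = v
    · subst ha
      have hb : b ≠ a := hab.ne'
      simp [hb]
    · by_cases hb : b = v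
      · subst hb
        simp [ha]
      · simp only [ha, hb, if_false]
        intro h
        refine C.valid (v := a) (w := b) ?_ (Option.some_injective _ h)
        rw [SimpleGraph.deleteEdges_adj]
        refine ⟨hab, ?_⟩
        intro hmem
        rw [Set.mem_singleton_iff, Sym2.eq_iff] at hmem
        rcases hmem with ⟨h, _⟩ | ⟨_, h⟩
        · exact ha h
        · exact hb h
  have hchi : H.chromaticNumber = ((K + 1 : ℕ) : ℕ∞) := by
    apply le_antisymm
    · exact SimpleGraph.chromaticNumber_le_iff_colorable.mpr hcol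
    · push_cast
      exact hle
  have hlt : (K : ℕ∞) < H.chromaticNumber := by
    rw [← not_le, SimpleGraph.chromaticNumber_le_iff_colorable]
    exact h1
  refine ⟨⟨hchi, ?_⟩, ?_⟩
  · intro v
    unfold SimpleGraph.Subgraph.IsCriticalVertex SimpleGraph.Subgraph.IsCriticalVerts
    have htop : (K : ℕ∞) < (⊤ : H.Subgraph).coe.chromaticNumber := by
      rw [← not_le, SimpleGraph.chromaticNumber_le_iff_colorable]
      intro hc
      refine h1 (hc.of_hom (G := H) (⟨fun x => ⟨x, trivial⟩, ?_⟩ : H →g (⊤ : H.Subgraph).coe))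
      intro a b hab
      exact hab
    refine lt_of_le_of_lt ?_ htop
    rw [SimpleGraph.chromaticNumber_le_iff_colorable]
    obtain ⟨w, hw⟩ := h3 v
    refine (h2 s(v, w) hw).of_hom (⟨fun x => x.1, ?_⟩ :
      ((⊤ : H.Subgraph).deleteVerts {v}).coe →g H.deleteEdges {s(v, w)})
    intro a b hab
    rw [SimpleGraph.Subgraph.coe_adj, SimpleGraph.Subgraph.deleteVerts_adj] at hab
    obtain ⟨_, hav, _, hbv, hab⟩ := hab
    rw [SimpleGraph.deleteEdges_adj]
    refine ⟨hab, ?_⟩
    intro hmem
    rw [Set.mem_singleton_iff, Sym2.eq_iff] at hmem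
    rcases hmem with ⟨h, _⟩ | ⟨_, h⟩
    · exact hav h
    · exact hbv h
  · intro e he
    unfold SimpleGraph.IsCriticalEdge SimpleGraph.IsCriticalEdges
    refine lt_of_le_of_lt ?_ hlt
    rw [SimpleGraph.chromaticNumber_le_iff_colorable]
    exact h2 e he

/-- Extraction of a critical graph containing all the critical edges. -/
theorem exists_critical {V : Type} [Fintype V] (G : SimpleGraph V) (K : ℕ) (hK : 1 ≤ K)
    (h1 : ¬ G.Colorable K) (E : Set (Sym2 V))
    (h2 : ∀ e ∈ E, (G.deleteEdges {e}).Colorable K) :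
    ∃ n : ℕ, n ≤ Fintype.card V ∧ ∃ H : SimpleGraph (Fin n), IsKCritical H (K + 1) ∧
      E.ncard ≤ H.edgeSet.ncard := by
  classical
  -- a minimal non-colourable spanning subgraph
  obtain ⟨M, hM⟩ : ∃ M : SimpleGraph V, Minimal (fun H : SimpleGraph V => H ≤ G ∧ ¬ H.Colorable K) M := by
    obtain ⟨M, _, hM⟩ := (Set.toFinite {H : SimpleGraph V | H ≤ G ∧ ¬ H.Colorable K}).exists_le_minimal
      (a := G) ⟨le_rfl, h1⟩
    exact ⟨M, hM⟩
  obtain ⟨⟨hMG, hMc⟩, hMmin⟩ := hM
  have hdel : ∀ e ∈ M.edgeSet, (M.deleteEdges {e}).Colorable K := by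
    intro e he
    by_contra hcon
    have hle : M.deleteEdges {e} ≤ M := SimpleGraph.deleteEdges_le _
    have := hMmin (y := M.deleteEdges {e}) ⟨hle.trans hMG, hcon⟩ hle
    have he' : e ∈ (M.deleteEdges {e}).edgeSet := SimpleGraph.edgeSet_mono this he
    rw [SimpleGraph.edgeSet_deleteEdges] at he'
    exact he'.2 rfl
  have hE : E ⊆ M.edgeSet := by
    intro e he
    by_contra hcon
    apply hMc
    refine (h2 e he).mono_left ?_
    intro a b hab
    rw [SimpleGraph.deleteEdges_adj]
    refine ⟨hMG hab, ?_⟩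
    intro hmem
    rw [Set.mem_singleton_iff] at hmem
    apply hcon
    rw [← hmem]
    exact hab
  -- the support
  let S : Set V := {v | ∃ w, M.Adj v w}
  let eqv : Fin (Fintype.card S) ≃ S := (Fintype.equivFin S).symm
  let f : Fin (Fintype.card S) → V := fun i => (eqv i).1
  have hf : Function.Injective f := fun i j h => eqv.injective (Subtype.ext h)
  have hfS : ∀ v, (∃ w, M.Adj v w) → ∃ i, f i = v := by
    intro v hv
    refine ⟨eqv.symm ⟨v, hv⟩, ?_⟩
    simp [f]
  let H : SimpleGraph (Fin (Fintype.card S)) := M.comap f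
  have hadj : ∀ i j, H.Adj i j ↔ M.Adj (f i) (f j) := fun i j => Iff.rfl
  have hHc : ¬ H.Colorable K := by
    rintro ⟨C⟩
    apply hMc
    refine ⟨SimpleGraph.Coloring.mk (fun v => if hv : ∃ w, M.Adj v w then C (eqv.symm ⟨v, hv⟩)
      else ⟨0, hK⟩) ?_⟩
    intro a b hab
    have ha : ∃ w, M.Adj a w := ⟨b, hab⟩
    have hb : ∃ w, M.Adj b w := ⟨a, hab.symm⟩
    simp only [ha, hb, dif_pos]
    apply C.valid
    rw [hadj]
    simpa [f] using hab
  have hHdel : ∀ e ∈ H.edgeSet, (H.deleteEdges {e}).Colorable K := by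
    intro e
    induction e with
    | h a b =>
      intro he
      have he' : s(f a, f b) ∈ M.edgeSet := he
      refine (hdel _ he').of_hom (⟨f, ?_⟩ :
        H.deleteEdges {s(a, b)} →g M.deleteEdges {s(f a, f b)})
      intro x y hxy
      rw [SimpleGraph.deleteEdges_adj] at hxy ⊢
      refine ⟨hxy.1, ?_⟩
      intro hmem
      apply hxy.2
      rw [Set.mem_singleton_iff] at hmem ⊢
      rw [Sym2.eq_iff] at hmem ⊢
      rcases hmem with ⟨h, h'⟩ | ⟨h, h'⟩
      · exact Or.inl ⟨hf h, hf h'⟩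
      · exact Or.inr ⟨hf h, hf h'⟩
  have hHiso : ∀ v, ∃ w, H.Adj v w := by
    intro v
    obtain ⟨w, hw⟩ := (eqv v).2
    obtain ⟨j, hj⟩ := hfS w ⟨_, hw.symm⟩
    refine ⟨j, ?_⟩
    rw [hadj, hj]
    exact hw
  have hne : Nonempty (Fin (Fintype.card S)) := by
    by_contra hcon
    rw [not_nonempty_iff] at hcon
    exact hHc ⟨SimpleGraph.Coloring.mk (fun v => hcon.elim v) (fun {v} => hcon.elim v)⟩
  refine ⟨Fintype.card S, Fintype.card_subtype_le _, H, isKCritical_of H K hHc hHdel hHiso, ?_⟩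
  have hsub : E ⊆ (Sym2.map f) '' H.edgeSet := by
    intro e he
    have he' := hE he
    revert he'
    induction e with
    | h a b =>
      intro he'
      have hab : M.Adj a b := he'
      obtain ⟨i, hi⟩ := hfS a ⟨_, hab⟩
      obtain ⟨j, hj⟩ := hfS b ⟨_, hab.symm⟩
      refine ⟨s(i, j), ?_, ?_⟩
      · change H.Adj i j
        rw [hadj, hi, hj]
        exact hab
      · rw [Sym2.map_mk, hi, hj]
  calc E.ncard ≤ ((Sym2.map f) '' H.edgeSet).ncard := Set.ncard_le_ncard hsub (Set.toFinite _)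
    _ ≤ H.edgeSet.ncard := Set.ncard_image_le (Set.toFinite _)

end Pool.Agent.Helper90.Crit
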